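import Pool.Agent.Helper5.FRD.Goals

/-!
# Packet FRD-STARH
-/

set_option autoImplicit false

namespace Pool.Agent.Helper2.FRD.STARH

open Finset Pool.Agent.Helper5.FRC Pool.Agent.Helper5.FRD

theorem fiveσ {V : Type} [DecidableEq V] {n : Equiv.Perm V} {A : Finset V} {t : V → V}
    {C : Fin 4 → Finset V} {Z : Finset V} (h : Five n A t C Z) (σ : Equiv.Perm (Fin 4)) :
    Five n A t (fun i => C (σ i)) Z := by
  obtain ⟨h1, h2, h3, h4, h5, h6, h7, h8, h9, h10⟩ := h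
  refine ⟨h1, h2, h3, fun i => h4 _, fun i => h5 _,
    fun i j hij => h6 _ _ (fun h => hij (σ.injective h)), h7, h8, fun i => h9 _, ?_⟩
  rw [h10]
  congr 1
  ext x
  simp only [mem_biUnion, mem_univ, true_and]
  constructor
  · rintro ⟨i, hi⟩
    exact ⟨σ.symm i, by rw [σ.apply_symm_apply]; exact hi⟩
  · rintro ⟨i, hi⟩
    exact ⟨_, hi⟩

theorem starσ {V : Type} [DecidableEq V] {C : Fin 4 → Finset V} {t' : V → V}
    (hs : ∀ i ≠ 3, ∀ x ∈ C i, t' x ∈ C i ∨ t' x ∈ C 3) (σ : Equiv.Perm (Fin 4))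
    (h3 : σ 3 = 3) : ∀ i ≠ 3, ∀ x ∈ C (σ i), t' x ∈ C (σ i) ∨ t' x ∈ C (σ 3) := by
  intro i hi x hx
  rw [h3]
  exact hs (σ i) (fun h => hi (σ.injective (h.trans h3.symm))) x hx

theorem core (h2 : StarbStmt) (h3 : Starc1Stmt) (h4 : Starc2Stmt) (h5 : ChainStmt) (V : Type)
    [Fintype V] [DecidableEq V] (n : Equiv.Perm V) (A : Finset V) (t : V → V)
    (C : Fin 4 → Finset V) (Z : Finset V) (hF : Five n A t C Z) (p t' : V → V)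
    (hA : Alg n Z p) (hR : Red A Z t p t')
    (hs : ∀ i ≠ 3, ∀ x ∈ C i, t' x ∈ C i ∨ t' x ∈ C 3)
    (n1 : ∀ x ∈ C 1, t x ∈ Z → t' x ∉ C 1) (n2 : ∀ x ∈ C 2, t x ∈ Z → t' x ∉ C 2) :
    SolH n A t := by
  obtain ⟨_, hPrg, hBl, hcir, hodd, _, _, _, hdz, hAe⟩ := id hF
  have hZA : Z ⊆ A := by rw [hAe]; exact subset_union_right
  have hCA : ∀ i, C i ⊆ A := by
    intro i x hx
    rw [hAe]
    exact mem_union_left _ (mem_biUnion.2 ⟨i, mem_univ i, hx⟩)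
  have hCZ : ∀ i, C i ⊆ A \ Z := fun i x hx =>
    mem_sdiff.2 ⟨hCA i hx, fun hz => disjoint_left.1 (hdz i) hx hz⟩
  have key : ∀ i, (∀ x ∈ C i, t x ∈ Z → t' x ∉ C i) → 5 ≤ dm t' (C i) := by
    intro i hi
    refine le_trans (hBl (C i) (hCA i) (hcir i).2.1 (hodd i)) ?_
    unfold dm
    apply card_le_card
    intro x hx
    rw [mem_filter] at hx ⊢
    refine ⟨hx.1, ?_⟩
    by_cases hz : t x ∈ Z
    · exact hi x hx.1 hz
    · rw [(h5 V A Z t p t' hPrg hZA hA.1 hR x (hCZ i hx.1)).2.1 hz]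
      exact hx.2
  rcases h2 V n A t C Z hF p t' hA hR hs (key 1 n1) (key 2 n2) with h | ⟨h0, hc1, hc2⟩
  · exact h
  by_cases e1 : ∃ x ∈ C 1, t x ∈ Z
  · obtain ⟨x, hx, hxz⟩ := e1
    exact h3 V n A t C Z hF p t' hA hR hs h0 hc2 x hx hxz
  by_cases e2 : ∃ x ∈ C 2, t x ∈ Z
  · obtain ⟨x, hx, hxz⟩ := e2
    have s0 : (Equiv.swap (1 : Fin 4) 2) 0 = 0 := by decide
    have s1 : (Equiv.swap (1 : Fin 4) 2) 1 = 2 := by decide
    have s2 : (Equiv.swap (1 : Fin 4) 2) 2 = 1 := by decide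
    have s3 : (Equiv.swap (1 : Fin 4) 2) 3 = 3 := by decide
    refine h3 V n A t (fun i => C (Equiv.swap 1 2 i)) Z (fiveσ hF _) p t' hA hR
      (starσ hs _ s3) ?_ ?_ x ?_ hxz
    · show dm t' (C (Equiv.swap 1 2 0)) = 1
      rw [s0]; exact h0
    · show ((C (Equiv.swap 1 2 2)).filter fun x => t x ∈ Z).card ≤ 1
      rw [s2]; exact hc1
    · show x ∈ C (Equiv.swap 1 2 1)
      rw [s1]; exact hx
  · push Not at e1 e2
    exact h4 V n A t C Z hF p t' hA hR hs h0 e1 e2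

theorem t (h1 : LoopStmt) (h2 : StarbStmt) (h3 : Starc1Stmt) (h4 : Starc2Stmt)
    (h5 : ChainStmt) (_h6 : Pool.Agent.Helper5.FRC.SubmStmt) :
    Pool.Agent.Helper5.FRD.StarhStmt := by
  intro V _ _ n A t C Z hF p t' hA hR hs
  by_cases L : ∃ i j, i ≠ j ∧ i ≠ 3 ∧ j ≠ 3 ∧ (∃ x ∈ C i, t x ∈ Z ∧ t' x ∈ C i) ∧
      ∃ y ∈ C j, t y ∈ Z ∧ t' y ∈ C j
  · obtain ⟨i, j, hij, hi, hj, ⟨x, hx, hxz, hxt⟩, ⟨y, hy, hyz, hyt⟩⟩ := L
    exact h1 V n A t C Z hF p t' hA hR hs i j hij hi hj x hx hxz hxt y hy hyz hyt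
  by_cases l1 : ∃ x ∈ C 1, t x ∈ Z ∧ t' x ∈ C 1
  · have n0 : ∀ x ∈ C 0, t x ∈ Z → t' x ∉ C 0 := fun x hx hz ht =>
      L ⟨1, 0, by decide, by decide, by decide, l1, ⟨x, hx, hz, ht⟩⟩
    have n2 : ∀ x ∈ C 2, t x ∈ Z → t' x ∉ C 2 := fun x hx hz ht =>
      L ⟨1, 2, by decide, by decide, by decide, l1, ⟨x, hx, hz, ht⟩⟩
    have s1 : (Equiv.swap (0 : Fin 4) 1) 1 = 0 := by decide
    have s2 : (Equiv.swap (0 : Fin 4) 1) 2 = 2 := by decide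
    have s3 : (Equiv.swap (0 : Fin 4) 1) 3 = 3 := by decide
    refine core h2 h3 h4 h5 V n A t (fun i => C (Equiv.swap 0 1 i)) Z (fiveσ hF _) p t' hA hR
      (starσ hs _ s3) ?_ ?_
    · show ∀ x ∈ C (Equiv.swap 0 1 1), t x ∈ Z → t' x ∉ C (Equiv.swap 0 1 1)
      rw [s1]; exact n0
    · show ∀ x ∈ C (Equiv.swap 0 1 2), t x ∈ Z → t' x ∉ C (Equiv.swap 0 1 2)
      rw [s2]; exact n2
  by_cases l2 : ∃ x ∈ C 2, t x ∈ Z ∧ t' x ∈ C 2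
  · have n0 : ∀ x ∈ C 0, t x ∈ Z → t' x ∉ C 0 := fun x hx hz ht =>
      L ⟨2, 0, by decide, by decide, by decide, l2, ⟨x, hx, hz, ht⟩⟩
    have n1 : ∀ x ∈ C 1, t x ∈ Z → t' x ∉ C 1 := fun x hx hz ht =>
      L ⟨2, 1, by decide, by decide, by decide, l2, ⟨x, hx, hz, ht⟩⟩
    have s1 : (Equiv.swap (0 : Fin 4) 2) 1 = 1 := by decide
    have s2 : (Equiv.swap (0 : Fin 4) 2) 2 = 0 := by decide
    have s3 : (Equiv.swap (0 : Fin 4) 2) 3 = 3 := by decide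
    refine core h2 h3 h4 h5 V n A t (fun i => C (Equiv.swap 0 2 i)) Z (fiveσ hF _) p t' hA hR
      (starσ hs _ s3) ?_ ?_
    · show ∀ x ∈ C (Equiv.swap 0 2 1), t x ∈ Z → t' x ∉ C (Equiv.swap 0 2 1)
      rw [s1]; exact n1
    · show ∀ x ∈ C (Equiv.swap 0 2 2), t x ∈ Z → t' x ∉ C (Equiv.swap 0 2 2)
      rw [s2]; exact n0
  · exact core h2 h3 h4 h5 V n A t C Z hF p t' hA hR hs
      (fun x hx hz ht => l1 ⟨x, hx, hz, ht⟩) (fun x hx hz ht => l2 ⟨x, hx, hz, ht⟩)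

end Pool.Agent.Helper2.FRD.STARH
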